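import Pool.Agent.H.MP_f2fc00_lc.Defs

namespace Pool.Agent.H.MP_f2fc00_lc

open Finset MvPolynomial

variable {V ι : Type} [Fintype V] [DecidableEq V]

noncomputable def dg (s : Finset ι) (f : ι → V) : V →₀ ℕ := ∑ i ∈ s, Finsupp.single (f i) 1

omit [Fintype V] in
theorem dg_apply (s : Finset ι) (f : ι → V) (v : V) : dg s f v = #{i ∈ s | f i = v} := by
  simp [dg, Finsupp.finset_sum_apply, Finsupp.single_apply]

omit [Fintype V] [DecidableEq V] in
theorem dg_deg (s : Finset ι) (f : ι → V) : (dg s f).degree = #s := by simp [dg]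

omit [Fintype V] [DecidableEq V] in
theorem prod_X (s : Finset ι) (f : ι → V) : ∏ i ∈ s, (X (f i) : MvPolynomial V ℤ) = monomial (dg s f) 1 :=
  (monomial_sum_one _ _).symm

noncomputable def P (D : Finset (V × V)) : MvPolynomial V ℤ := ∏ e ∈ D, (X e.1 - X e.2)

theorem coeff_P (D : Finset (V × V)) : coeff (dg D (·.1)) (P D) = EE D - EO D := by
  simp only [P, sub_eq_neg_add, prod_add, prod_neg, prod_X, coeff_sum]
  rw [EE, EO, card_filter, card_filter]
  push_cast
  rw [← sum_neg_distrib, ← sum_add_distrib]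
  refine sum_congr rfl fun F hF => ?_
  have e : dg F (·.2) + dg (D \ F) (·.1) = dg D (·.1) ↔ Eulerian F := by
    rw [show dg D (·.1) = dg F (·.1) + dg (D \ F) (·.1) by
      rw [add_comm]; exact (sum_sdiff (mem_powerset.1 hF)).symm, add_left_inj]
    simp only [Finsupp.ext_iff, dg_apply, Eulerian, eq_comm]
  rw [mul_assoc, monomial_mul, show ((-1 : MvPolynomial V ℤ)) ^ #F = C ((-1) ^ #F) by simp, coeff_C_mul, coeff_monomial]
  by_cases h : Eulerian F <;> simp only [e, h, if_true, if_false, true_and, false_and]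
  · rcases Nat.even_or_odd #F with k | k
    · simp [k, k.neg_one_pow, Nat.not_odd_iff_even.2 k]
    · simp [k, k.neg_one_pow, Nat.not_even_iff_odd.2 k]
  · simp

omit [Fintype V] [DecidableEq V] in
theorem deg_le (s : Finset ι) (f : ι → V) (g : ι → MvPolynomial V ℤ) (h : ∀ i, (g i).totalDegree ≤ 1) :
    (∏ i ∈ s, (X (f i) - g i)).totalDegree ≤ #s :=
  (totalDegree_finsetProd _ _).trans ((sum_le_card_nsmul _ _ 1 fun i _ => (totalDegree_sub _ _).trans
    (by simp [h i])).trans (by simp))

omit [Fintype V] [DecidableEq V] in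
theorem deg_ge {p : MvPolynomial V ℤ} {t} (h : coeff t p ≠ 0) : t.degree ≤ p.totalDegree :=
  le_totalDegree (mem_support_iff.2 h)

omit [Fintype V] [DecidableEq V] in
theorem coeff_top (s : Finset ι) (f : ι → V) (b : ι → ℤ) : coeff (dg s f) (∏ i ∈ s, (X (f i) - C (b i))) = 1 := by
  classical
  induction s using Finset.induction_on with
  | empty => simp [dg]
  | insert a s h ih =>
    have : coeff (dg (insert a s) f) (∏ i ∈ s, (X (f i) - C (b i))) = 0 := by
      by_contra k
      have := (deg_ge k).trans (deg_le s f _ fun i => by rw [totalDegree_C]; omega)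
      rw [dg_deg, card_insert_of_notMem h] at this
      omega
    rw [prod_insert h, sub_mul, coeff_sub, coeff_C_mul, this, dg, sum_insert h, coeff_X_mul]
    exact (by rw [mul_zero, sub_zero]; exact ih)

theorem col {D : Finset (V × V)} (h : EE D ≠ EO D) (L : V → Finset ℤ) (hL : ∀ v, #{e ∈ D | e.1 = v} < #(L v)) :
    ∃ c : V → ℤ, (∀ v, c v ∈ L v) ∧ ∀ e ∈ D, c e.1 ≠ c e.2 := by
  have k : coeff (dg D (·.1)) (P D) ≠ 0 := by rw [coeff_P]; omega
  obtain ⟨c, a, b⟩ := combinatorial_nullstellensatz_exists_eval_nonzero _ _ k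
    (le_antisymm ((deg_le D _ _ fun i => by simp).trans (dg_deg _ _).ge) (deg_ge k)) L (by simpa [dg_apply] using hL)
  exact ⟨c, a, by simpa [P, prod_ne_zero_iff, sub_eq_zero] using b⟩

theorem uniq {D : Finset (V × V)} (L : V → Finset ℤ) (hL : ∀ v, #{e ∈ D | e.1 = v} < #(L v)) (a : V → ℤ)
    (h1 : ∀ v, a v ∈ L v) (h2 : ∀ e ∈ D, a e.1 ≠ a e.2)
    (h3 : ∀ c : V → ℤ, (∀ v, c v ∈ L v) → (∀ e ∈ D, c e.1 ≠ c e.2) → ∀ v, c v = a v) : EE D ≠ EO D := by
  let s : Finset (Σ _ : V, ℤ) := univ.sigma fun v => (L v).erase (a v)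
  let g : MvPolynomial V ℤ := ∏ i ∈ s, (X i.1 - C i.2)
  have t : ∀ v, dg s (·.1) v + 1 = #(L v) := fun v => by
    rw [dg_apply, ← card_erase_add_one (h1 v), ← card_image_of_injective ((L v).erase (a v)) (sigma_mk_injective
      (i := v) (β := fun _ => ℤ))]
    congr 2
    ext ⟨w, b⟩
    simp only [s, mem_filter, mem_sigma, mem_univ, true_and, mem_image]
    exact ⟨by rintro ⟨h, rfl⟩; exact ⟨b, h, rfl⟩, by rintro ⟨_, h, ⟨⟩⟩; exact ⟨h, rfl⟩⟩
  have le : dg D (·.1) ≤ dg s (·.1) := fun v => by have := t v; have := hL v; rw [dg_apply]; omega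
  have d1 : (P D).totalDegree ≤ (dg D (·.1)).degree := (deg_le D _ _ fun i => by simp).trans (dg_deg _ _).ge
  have d2 : g.totalDegree ≤ (dg s (·.1)).degree := (deg_le s _ _ fun i => by rw [totalDegree_C]; omega).trans (dg_deg _ _).ge
  have k : coeff (dg s (·.1)) (C (eval a g) * P D - C (eval a (P D)) * g) = 0 := by
    by_contra k
    obtain ⟨c, a1, a2⟩ := combinatorial_nullstellensatz_exists_eval_nonzero _ _ k
      (le_antisymm ((totalDegree_sub _ _).trans (max_le ((totalDegree_mul _ _).trans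
        (by rw [totalDegree_C, zero_add]; exact d1.trans (Finsupp.degree_mono le))) ((totalDegree_mul _ _).trans (by rwa [totalDegree_C, zero_add]))))
        (deg_ge k)) L fun v => by have := t v; omega
    refine a2 ?_
    by_cases e : c = a
    · simp [e, mul_comm]
    · have e1 : eval c (P D) = 0 := by
        by_contra q
        exact e (funext (h3 c a1 (by simpa [P, prod_ne_zero_iff, sub_eq_zero] using q)))
      obtain ⟨v, hv⟩ := Function.ne_iff.1 e
      have e2 : eval c g = 0 := by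
        simp only [g, map_prod]
        exact prod_eq_zero (i := ⟨v, c v⟩) (by simp [s, hv, a1]) (by simp)
      simp [e1, e2]
  have k1 : eval a (P D) ≠ 0 := by simpa [P, prod_ne_zero_iff, sub_eq_zero] using h2
  rw [coeff_sub, coeff_C_mul, coeff_C_mul, coeff_top, mul_one, sub_eq_zero] at k
  have k2 : coeff (dg s (·.1)) (P D) ≠ 0 := fun q => k1 (by rw [← k, q, mul_zero])
  have k3 : dg s (·.1) = dg D (·.1) := by
    have := (deg_ge k2).trans d1
    rw [Finsupp.degree_eq_sum, Finsupp.degree_eq_sum] at this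
    exact Finsupp.ext fun v => ((sum_eq_sum_iff_of_le fun v _ => le v).1
      (le_antisymm (sum_le_sum fun v _ => le v) this) v (mem_univ v)).symm
  rw [k3, coeff_P] at k2
  omega

end Pool.Agent.H.MP_f2fc00_lc
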