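import Pool.Agent.H.MP_f2fc00_lc.A
import Pool.Agent.Lib.helper25.RelGr

namespace Pool.Agent.H.MP_f2fc00_lc

open Finset Pool.Agent.Lib.CX

theorem nonempty {n : ℕ} (G : SimpleGraph (Fin n)) :
    {k | ∃ D, IsOrient G D ∧ EE D ≠ EO D ∧ ∀ v, #{e ∈ D | e.1 = v} + 1 ≤ k}.Nonempty := by
  classical
  refine ⟨#(univ : Finset (Fin n × Fin n)) + 1, univ.filter fun e : Fin n × Fin n => G.Adj e.1 e.2 ∧ e.2 < e.1,
    ⟨by simp +contextual, fun u v h => ?_⟩,
    uniq (fun v => insert (v : ℤ) (({w | G.Adj v w ∧ w < v} : Finset (Fin n)).image fun w : Fin n => ((w : ℕ) : ℤ)))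
      (fun v => ?_) (fun v => v) (by simp) (by simp; omega) fun c a b v => ?_,
    fun v => Nat.succ_le_succ (card_le_univ _)⟩
  · have := h.ne
    simp [h, h.symm]; omega
  · rw [card_insert_of_notMem (by simp; omega), card_image_of_injective _ fun a b h => Fin.ext (by simpa using h)]
    refine Nat.lt_succ_of_le (card_le_card_of_injOn (·.2) (fun e he => ?_) fun e he f hf h => Prod.ext ?_ h)
    · simp at he ⊢; exact he.2 ▸ he.1
    · simp at he hf; rw [he.2, hf.2]
  · induction v using WellFoundedLT.induction with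
    | ind v ih =>
      rcases mem_insert.1 (a v) with h | h
      · exact h
      · obtain ⟨w, k, e⟩ := mem_image.1 h
        exact absurd (e.symm.trans (ih w (mem_filter.1 k).2.2).symm) (b (v, w) (by simpa using k))

variable {W : Type} [DecidableEq W] (vs : List W) (r : W × W → Bool)

theorem at_col {k : ℕ} (h : AT (relGr vs r).G ≤ k) : ∃ c : W → ℤ, (∀ x ∈ vs, 0 ≤ c x ∧ c x < k) ∧
    ∀ x ∈ vs, ∀ y ∈ vs, x ≠ y → r (x, y) = true → c x ≠ c y := by
  obtain ⟨D, a, b, d⟩ := Nat.sInf_mem (nonempty (relGr vs r).G)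
  obtain ⟨c, e, f⟩ := col b (fun _ => Ico 0 (k : ℤ)) fun v => by simpa using (d v).trans h
  choose N hN using fun x => (relNm_range vs r x).1
  refine ⟨fun x => if h : x ∈ vs then c (N x h) else 0, fun x h => by simpa [h] using e _, fun x h y k ne q => ?_⟩
  have := a.2 (N x h) (N y k) ((relGr_adj _ _ _ _).2 (by rw [hN, hN]; exact ⟨ne, .inl q⟩))
  simp only [h, k, dite_true]
  by_cases q : (N x h, N y k) ∈ D
  · exact f _ q
  · exact (f (N y k, N x h) (by tauto)).symm

theorem at_le {k : ℕ} (out : W → List W) (L : W → Finset ℤ) (a : W → ℤ)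
    (h1 : ∀ x ∈ vs, (out x).length < #(L x) ∧ #(L x) ≤ k ∧ a x ∈ L x)
    (h2 : ∀ x ∈ vs, ∀ y ∈ vs, r (x, y) = true → a x ≠ a y ∧ (y ∈ out x ∨ x ∈ out y))
    (h3 : ∀ c : W → ℤ, (∀ x ∈ vs, c x ∈ L x) → (∀ x ∈ vs, ∀ y ∈ vs, r (x, y) = true → c x ≠ c y) →
      ∀ x ∈ vs, c x = a x) : AT (relGr vs r).G ≤ k := by
  classical
  have m := fun u => (relNm_range vs r _).2 ⟨u, rfl⟩
  have ad : ∀ u v, (relGr vs r).G.Adj u v → a (relNm vs r u) ≠ a (relNm vs r v) ∧
      (relNm vs r v ∈ out (relNm vs r u) ∨ relNm vs r u ∈ out (relNm vs r v)) := fun u v h =>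
    ((relGr_adj _ _ _ _).1 h).2.elim (h2 _ (m u) _ (m v)) fun h => (h2 _ (m v) _ (m u) h).imp .symm .symm
  let D : Finset (Fin (relGr vs r).n × Fin (relGr vs r).n) := {e | (relGr vs r).G.Adj e.1 e.2 ∧
    relNm vs r e.2 ∈ out (relNm vs r e.1) ∧ (relNm vs r e.1 ∉ out (relNm vs r e.2) ∨ e.1 < e.2)}
  have o : IsOrient (relGr vs r).G D := ⟨by simp +contextual [D], fun u v h => by
    have := h.ne
    rcases (ad u v h).2 with q | q <;> simp [D, h, h.symm, q] <;> by_cases relNm vs r u ∈ out (relNm vs r v) <;>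
      by_cases relNm vs r v ∈ out (relNm vs r u) <;> simp [*] <;> omega⟩
  have d : ∀ v, #{e ∈ D | e.1 = v} < #(L (relNm vs r v)) := fun v => by
    refine ((card_le_card_of_injOn (fun e => relNm vs r e.2) (fun e he => ?_) fun e he f hf h =>
      Prod.ext ?_ (relNm_inj vs r h)).trans (List.toFinset_card_le (out (relNm vs r v)))).trans_lt (h1 _ (m v)).1
    · simp [D] at he ⊢; exact he.2 ▸ he.1.2.1
    · simp at he hf; rw [he.2, hf.2]
  refine Nat.sInf_le ⟨D, o, uniq _ d (fun v => a (relNm vs r v)) (fun v => (h1 _ (m v)).2.2)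
    (fun e he => (ad _ _ (o.1 e he)).1) fun c b e v => ?_, fun v => (d v).trans_le (h1 _ (m v)).2.1⟩
  choose N hN using fun x => (relNm_range vs r x).1
  have := h3 (fun x => if h : x ∈ vs then c (N x h) else 0) (fun x h => by simpa [h, hN] using b (N x h))
    (fun x h y k q => ?_) _ (m v)
  · simpa [m v, relNm_inj vs r (hN _ (m v))] using this
  have := o.2 (N x h) (N y k) ((relGr_adj _ _ _ _).2 (by
    rw [hN, hN]; exact ⟨fun e => (h2 x h y k q).1 (by rw [e]), .inl q⟩))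
  simp only [h, k, dite_true]
  by_cases q : (N x h, N y k) ∈ D
  · exact e _ q
  · exact (e (N y k, N x h) (by tauto)).symm

end Pool.Agent.H.MP_f2fc00_lc
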