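import Pool.Agent.H.MP_f2fc00_lc.B

namespace Pool.Agent.H.MP_f2fc00_lc

open Finset Pool.Agent.Lib.CX

abbrev W := ℕ × ℕ × ℕ
def In (N : ℕ) (p : W) : Prop := (p.1 = 0 ∧ p.2.1 = 0 ∧ p.2.2 = 0) ∨
  (1 ≤ p.1 ∧ p.1 ≤ 4 ∧ p.2.1 < 2 * N ∧ p.2.2 < N) ∨ (p.1 = 5 ∧ p.2.1 = 0 ∧ p.2.2 < N)
def R (N ℓ : ℕ) (p q : W) : Prop :=
  (1 ≤ p.1 ∧ p.1 ≤ 2 ∧ p.1 < q.1 ∧ q.1 ≤ 4 ∧ p.2.1 = q.2.1 ∧ p.2.2 = q.2.2) ∨ (p.1 = 0 ∧ q.1 = 2) ∨
  (p.1 = 1 ∧ q.1 = 4 ∧ p.2.1 = q.2.1 ∧ p.2.2 + 1 = q.2.2) ∨
  (p.1 = 1 ∧ q.1 = 1 ∧ p.2.1 % 2 = 0 ∧ p.2.1 + 1 = q.2.1 ∧ p.2.2 + 1 = N ∧ q.2.2 + 1 = N) ∨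
  (p.1 = 5 ∧ q.1 = 5 ∧ p.2.2 < q.2.2 ∧ p.2.2 / 3 = q.2.2 / 3) ∨ (p.1 = 3 ∧ q.1 = 5 ∧ p.2.2 = q.2.2 ∧ p.2.1 = ℓ)

theorem toSat {M : ℕ} {L : ℕ → ℕ} (hL : ∀ j < 3 * M, L j < 2 * (3 * M)) {c : W → ℤ}
    (h0 : ∀ x, In (3 * M) x → 0 ≤ c x ∧ c x < 3)
    (h : ∀ x, In (3 * M) x → ∀ y, In (3 * M) y → R (3 * M) (L y.2.2) x y → c x ≠ c y) :
    ∃ T : ℕ → Bool, (∀ x < 3 * M, T (2 * x) = !T (2 * x + 1)) ∧ ∀ i < M, ∃ k < 3, T (L (3 * i + k)) = true := by
  classical
  have H : ∀ a l j b l' j', In (3 * M) (a, l, j) → In (3 * M) (b, l', j') → R (3 * M) (L j') (a, l, j) (b, l', j') →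
    c (a, l, j) ≠ c (b, l', j') := fun a l j b l' j' e f => h _ e _ f
  have H0 : ∀ a l j, In (3 * M) (a, l, j) → 0 ≤ c (a, l, j) ∧ c (a, l, j) < 3 := fun a l j => h0 _
  unfold In R at H
  unfold In at H0
  dsimp only at H H0
  have d : ∀ l < 2 * (3 * M), ∀ j < 3 * M, ∀ a, a = 3 ∨ a = 4 → c (a, l, j) ≠ c (0, 0, 0) → c (1, l, j) = c (0, 0, 0) :=
    fun l hl j hj a ha e => by
    have := H 1 l j 2 l j (by omega) (by omega) (by omega)
    have := H 1 l j a l j (by omega) (by omega) (by omega)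
    have := H 2 l j a l j (by omega) (by omega) (by omega)
    have := H 0 0 0 2 l j (by omega) (by omega) (by omega)
    have := H0 0 0 0 (by omega)
    have := H0 1 l j (by omega)
    have := H0 2 l j (by omega)
    have := H0 a l j (by omega)
    clear H H0
    omega
  have u : ∀ l < 2 * (3 * M), ∀ j i, j + i < 3 * M → c (3, l, j) ≠ c (0, 0, 0) → c (1, l, j + i) = c (0, 0, 0) :=
    fun l hl j i hj e => by
    induction i with
    | zero => exact d l hl j hj 3 (.inl rfl) e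
    | succ i ih =>
      exact d l hl _ hj 4 (.inr rfl) (ih (by omega) ▸ (H 1 l (j + i) 4 l _ (by omega) (by omega) (by omega)).symm)
  refine ⟨fun l => decide (l % 2 = 1 ↔ ∃ j < 3 * M, c (3, 2 * (l / 2) + 1, j) ≠ c (0, 0, 0)), fun x _ => ?_, fun i hi => ?_⟩
  · rw [Bool.eq_iff_iff]; simp [Nat.add_mod, Nat.add_div]
  · obtain ⟨k, hk, e⟩ : ∃ k < 3, c (5, 0, 3 * i + k) = c (0, 0, 0) := by
      have := H 5 0 (3 * i + 0) 5 0 (3 * i + 1) (by omega) (by omega) (by omega)
      have := H 5 0 (3 * i + 0) 5 0 (3 * i + 2) (by omega) (by omega) (by omega)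
      have := H 5 0 (3 * i + 1) 5 0 (3 * i + 2) (by omega) (by omega) (by omega)
      have := H0 0 0 0 (by omega)
      have := H0 5 0 (3 * i + 0) (by omega)
      have := H0 5 0 (3 * i + 1) (by omega)
      have := H0 5 0 (3 * i + 2) (by omega)
      clear H H0
      simp only [Nat.exists_lt_succ_right, not_lt_zero, false_and, exists_false, false_or]
      omega
    have l := hL (3 * i + k) (by omega)
    have f := e ▸ H 3 (L (3 * i + k)) (3 * i + k) 5 0 (3 * i + k) (by omega) (by omega) (by omega)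
    refine ⟨k, hk, decide_eq_true ⟨fun q => ⟨3 * i + k, by omega, by rwa [show 2 * (L (3 * i + k) / 2) + 1 = L (3 * i + k) by
      omega]⟩, fun ⟨j, hj, g⟩ => ?_⟩⟩
    by_contra q
    have a1 := u _ l (3 * i + k) (3 * M - 1 - (3 * i + k)) (by omega) f
    have a2 := u _ (by omega) j (3 * M - 1 - j) (by omega) g
    exact H 1 _ _ 1 _ _ (by omega) (by omega) (by omega) (a1.trans a2.symm)

def out (N : ℕ) (L k : ℕ → ℕ) (T : ℕ → Bool) : W → List W
  | (1, l, j) => if T l = true then [(3, l, j), (2, l, j)] else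
      [(2, l, j), if j + 1 < N then (4, l, j + 1) else (1, l + 1 - 2 * (l % 2), j)]
  | (2, l, j) => if T l = true then [(4, l, j), (0, 0, 0)] else [(0, 0, 0)]
  | (3, l, j) => if T l = true then (if l = L j ∧ j % 3 = k (j / 3) then [(2, l, j), (5, 0, j)] else [(2, l, j)])
      else [(1, l, j), (2, l, j)]
  | (4, l, j) => if T l = true then (if j = 0 then [(1, l, j)] else [(1, l, j), (1, l, j - 1)])
      else [(1, l, j), (2, l, j)]
  | (5, _, j) => if j % 3 = k (j / 3) then [(5, 0, 3 * (j / 3) + (j + 1) % 3), (5, 0, 3 * (j / 3) + (j + 2) % 3)]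
      else if (j + 2) % 3 = k (j / 3) then [(3, L j, j), (5, 0, 3 * (j / 3) + (j + 1) % 3)] else [(3, L j, j)]
  | _ => []

def Ls (N : ℕ) (L k : ℕ → ℕ) (T : ℕ → Bool) : W → Finset ℤ
  | (1, l, j) => if T l = true then {1, 2, 3} else if j + 1 < N then {1, 2, 4} else {2, 3, 4}
  | (2, l, _) => if T l = true then {0, 1, 2} else {0, 2}
  | (3, l, j) => if T l = true then (if l = L j ∧ j % 3 = k (j / 3) then {1, 3, 7} else {1, 3}) else {1, 2, 4}
  | (4, l, j) => if T l = true then (if j = 0 then {1, 2} else {1, 2, 3}) else {1, 2, 4}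
  | (5, _, j) => if j % 3 = k (j / 3) then {5, 6, 7} else if (j + 2) % 3 = k (j / 3) then {1, 5, 6} else {1, 5}
  | _ => {0}

def cl (k : ℕ → ℕ) (T : ℕ → Bool) : W → ℤ
  | (1, l, _) => if T l = true then 3 else 4
  | (2, _, _) => 2
  | (3, _, _) => 1
  | (4, _, _) => 1
  | (5, _, j) => if j % 3 = k (j / 3) then 7 else if (j + 2) % 3 = k (j / 3) then 6 else 5
  | _ => 0

section
variable {M : ℕ} {L k : ℕ → ℕ} {T : ℕ → Bool} (hL : ∀ j < 3 * M, L j < 2 * (3 * M))
  (h1 : ∀ x < 3 * M, T (2 * x) = !T (2 * x + 1)) (h2 : ∀ i < M, k i < 3 ∧ T (L (3 * i + k i)) = true)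

theorem g1 (x) (h : In (3 * M) x) : (out (3 * M) L k T x).length < #(Ls (3 * M) L k T x) ∧
    #(Ls (3 * M) L k T x) ≤ 3 ∧ cl k T x ∈ Ls (3 * M) L k T x := by
  obtain ⟨a, l, j⟩ := x
  have : a ≤ 5 := by simp only [In] at h; omega
  interval_cases a <;> simp only [out, Ls, cl] <;> (try split_ifs) <;> simp

include h1 h2 in
theorem g2 (x) (h : In (3 * M) x) (y) (h' : In (3 * M) y) (e : R (3 * M) (L y.2.2) x y) :
    cl k T x ≠ cl k T y ∧ (y ∈ out (3 * M) L k T x ∨ x ∈ out (3 * M) L k T y) := by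
  obtain ⟨a, l, j⟩ := x
  obtain ⟨b, l', j'⟩ := y
  simp only [In, R] at h h' e
  obtain ⟨e1, e2, e3, e4, rfl, rfl⟩ | ⟨rfl, rfl⟩ | ⟨rfl, rfl, rfl, rfl⟩ | ⟨rfl, rfl, e1, rfl, e2, e3⟩ |
    ⟨rfl, rfl, e1, e2⟩ | ⟨rfl, rfl, rfl, rfl⟩ := e
  · interval_cases a <;> interval_cases b <;> simp only [out, cl] <;> split_ifs <;> simp
  · obtain ⟨rfl, rfl⟩ : l = 0 ∧ j = 0 := by omega
    simp only [out, cl]; split_ifs <;> simp
  · have : j + 1 < 3 * M := by omega
    simp only [out, cl]; split_ifs <;> simp [*] at *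
  · obtain rfl : j = j' := by omega
    have := h1 (l / 2) (by omega)
    rw [show 2 * (l / 2) = l by omega] at this
    simp only [out, cl, e2, this, lt_irrefl, if_false]
    cases T (l + 1) <;> simp <;> omega
  · have := (h2 (j / 3) (by omega)).1
    obtain ⟨rfl, rfl⟩ : l = 0 ∧ l' = 0 := by omega
    simp only [out, cl, ← e2]; split_ifs <;> simp <;> omega
  · obtain rfl : l' = 0 := by omega
    have := (h2 (j / 3) (by omega)).2
    simp only [out, cl]
    by_cases q : j % 3 = k (j / 3)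
    · rw [← q, Nat.div_add_mod] at this
      simp [q, this]
    · simp only [q, if_false]; split_ifs <;> simp

include hL h1 h2 in
theorem g3 (c : W → ℤ) (h0 : ∀ x, In (3 * M) x → c x ∈ Ls (3 * M) L k T x)
    (h : ∀ x, In (3 * M) x → ∀ y, In (3 * M) y → R (3 * M) (L y.2.2) x y → c x ≠ c y) (x) (hx : In (3 * M) x) :
    c x = cl k T x := by
  have H : ∀ a l j b l' j', In (3 * M) (a, l, j) → In (3 * M) (b, l', j') → R (3 * M) (L j') (a, l, j) (b, l', j') →
    c (a, l, j) ≠ c (b, l', j') := fun a l j b l' j' e f => h _ e _ f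
  have H0 : ∀ a l j, In (3 * M) (a, l, j) → c (a, l, j) ∈ Ls (3 * M) L k T (a, l, j) := fun a l j => h0 _
  unfold In R at H
  unfold In at H0
  dsimp only at H H0
  have b0 : c (0, 0, 0) = 0 := by simpa [Ls] using H0 0 0 0 (by omega)
  have D : ∀ l < 2 * (3 * M), ∀ j < 3 * M, c (1, l, j) ≠ c (2, l, j) ∧ c (1, l, j) ≠ c (3, l, j) ∧
      c (1, l, j) ≠ c (4, l, j) ∧ c (2, l, j) ≠ c (3, l, j) ∧ c (2, l, j) ≠ c (4, l, j) ∧ c (2, l, j) ≠ 0 :=
    fun l hl j hj => ⟨H _ _ _ _ _ _ (by omega) (by omega) (by omega), H _ _ _ _ _ _ (by omega) (by omega) (by omega),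
      H _ _ _ _ _ _ (by omega) (by omega) (by omega), H _ _ _ _ _ _ (by omega) (by omega) (by omega),
      H _ _ _ _ _ _ (by omega) (by omega) (by omega), b0 ▸ (H 0 0 0 2 l j (by omega) (by omega) (by omega)).symm⟩
  have s1 : ∀ l < 2 * (3 * M), T l = true → ∀ j < 3 * M, c (1, l, j) = 3 := fun l hl t j hj => by
    induction j with
    | zero =>
      have := D l hl 0 hj
      have a1 := H0 1 l 0 (by omega)
      have a2 := H0 2 l 0 (by omega)
      have a4 := H0 4 l 0 (by omega)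
      simp [Ls, t] at a1 a2 a4
      omega
    | succ j ih =>
      have := D l hl _ hj
      have := ih (by omega) ▸ H 1 l j 4 l (j + 1) (by omega) (by omega) (by omega)
      have a1 := H0 1 l (j + 1) (by omega)
      have a2 := H0 2 l (j + 1) (by omega)
      have a4 := H0 4 l (j + 1) (by omega)
      simp [Ls, t] at a1 a2 a4
      omega
  have s2 : ∀ l < 2 * (3 * M), T l = false → ∀ d j, j + d + 1 = 3 * M → c (1, l, j) = 4 ∧ c (2, l, j) = 2 ∧
      c (3, l, j) = 1 ∧ c (4, l, j) = 1 := fun l hl t d => by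
    have : ∀ j < 3 * M, c (1, l, j) ≠ (if j + 1 < 3 * M then 1 else 3) → c (1, l, j) = 4 ∧ c (2, l, j) = 2 ∧
        c (3, l, j) = 1 ∧ c (4, l, j) = 1 := fun j hj e => by
      have := D l hl _ hj
      have a1 := H0 1 l j (by omega)
      have a2 := H0 2 l j (by omega)
      have a3 := H0 3 l j (by omega)
      have a4 := H0 4 l j (by omega)
      by_cases q : j + 1 < 3 * M <;> simp [Ls, t, q] at a1 a2 a3 a4 e <;> omega
    induction d with
    | zero =>
      intro j e
      refine this j (by omega) ?_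
      rw [if_neg (by omega)]
      have a := h1 (l / 2) (by omega)
      by_cases q : l % 2 = 0
      · rw [show 2 * (l / 2) = l by omega, t] at a
        exact s1 (l + 1) (by omega) (by simpa using a) j (by omega) ▸ H 1 l j 1 (l + 1) j (by omega) (by omega) (by omega)
      · rw [show 2 * (l / 2) + 1 = l by omega, t] at a
        exact s1 _ (by omega) a j (by omega) ▸ (H 1 (2 * (l / 2)) j 1 l j (by omega) (by omega) (by omega)).symm
    | succ d ih =>
      intro j e
      refine this j (by omega) ?_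
      rw [if_pos (by omega)]
      exact (ih (j + 1) (by omega)).2.2.2 ▸ H 1 l j 4 l (j + 1) (by omega) (by omega) (by omega)
  have s3 : ∀ l < 2 * (3 * M), ∀ j < 3 * M, ¬(l = L j ∧ j % 3 = k (j / 3)) → c (3, l, j) = 1 := fun l hl j hj q => by
    cases t : T l
    · exact (s2 l hl t (3 * M - 1 - j) j (by omega)).2.2.1
    · have := D l hl j hj
      have := s1 l hl t j hj
      have a3 := H0 3 l j (by omega)
      simp only [Ls, t, q, if_true, if_false, mem_insert, mem_singleton] at a3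
      omega
  have s4 : ∀ j < 3 * M, j % 3 ≠ k (j / 3) → c (5, 0, j) ≠ 1 := fun j hj q => by
    have := hL j hj
    exact s3 _ this j hj (fun e => q e.2) ▸ (H 3 (L j) j 5 0 j (by omega) (by omega) (by omega)).symm
  have s5 : ∀ j < 3 * M, c (5, 0, j) = cl k T (5, 0, j) := fun j hj => by
    obtain ⟨i, r, hr, rfl⟩ : ∃ i r, r < 3 ∧ j = 3 * i + r := ⟨j / 3, j % 3, by omega, by omega⟩
    have := (h2 i (by omega)).1
    have := H 5 0 (3 * i + 0) 5 0 (3 * i + 1) (by omega) (by omega) (by omega)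
    have := H 5 0 (3 * i + 0) 5 0 (3 * i + 2) (by omega) (by omega) (by omega)
    have := H 5 0 (3 * i + 1) 5 0 (3 * i + 2) (by omega) (by omega) (by omega)
    have a0 := H0 5 0 (3 * i + 0) (by omega)
    have a1 := H0 5 0 (3 * i + 1) (by omega)
    have a2 := H0 5 0 (3 * i + 2) (by omega)
    have b0 := s4 (3 * i + 0) (by omega)
    have b1 := s4 (3 * i + 1) (by omega)
    have b2 := s4 (3 * i + 2) (by omega)
    have e : ∀ r < 3, (3 * i + r) / 3 = i ∧ (3 * i + r) % 3 = r ∧ (3 * i + r + 2) % 3 = (r + 2) % 3 := by omega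
    simp only [Ls, cl, e 0, e 1, e 2, e r hr, zero_lt_three, Nat.one_lt_ofNat, Nat.lt_add_one] at *
    generalize k i = q at *
    clear H H0 D s1 s2 s3 s4 e
    interval_cases q <;> interval_cases r <;> simp at * <;> omega
  have s6 : ∀ l < 2 * (3 * M), ∀ j < 3 * M, c (3, l, j) = 1 := fun l hl j hj => by
    by_cases q : l = L j ∧ j % 3 = k (j / 3)
    · cases t : T l
      · exact (s2 l hl t (3 * M - 1 - j) j (by omega)).2.2.1
      have := D l hl j hj
      have := s1 l hl t j hj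
      have a3 := H0 3 l j (by omega)
      have a4 := s5 j hj ▸ H 3 l j 5 0 j (by omega) (by omega) (by omega)
      simp only [Ls, t, if_true, if_pos q, mem_insert, mem_singleton] at a3
      simp only [cl, q.2, if_true] at a4
      omega
    · exact s3 l hl j hj q
  obtain ⟨a, l, j⟩ := x
  simp only [In] at hx
  obtain ⟨rfl, rfl, rfl⟩ | ⟨e1, e2, hl, hj⟩ | ⟨rfl, rfl, hj⟩ := hx
  · exact b0
  · cases t : T l
    · have := s2 l hl t (3 * M - 1 - j) j (by omega)
      interval_cases a <;> simp [cl, t, this]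
    · have := D l hl j hj
      have := s1 l hl t j hj
      have := s6 l hl j hj
      have a2 := H0 2 l j (by omega)
      have a4 := H0 4 l j (by omega)
      by_cases q : j = 0 <;> simp only [Ls, t, q, if_true, if_false, mem_insert, mem_singleton] at a2 a4 <;>
        interval_cases a <;> simp only [cl, t, if_true] <;> subst_vars <;> omega
  · exact s5 j hj

end

def LL (φ : List (Cl3 ℕ)) (t : ℕ) : ℕ :=
  2 * (litOf (φ.getD (t / 3) (unit 0 true), t % 3)).1 + (litOf (φ.getD (t / 3) (unit 0 true), t % 3)).2.toNat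
instance (N p) : Decidable (In N p) := by unfold In; infer_instance
set_option synthInstance.maxSize 2000 in
instance (N L p q) : Decidable (R N L p q) := by unfold R; infer_instance
def vs (N : ℕ) : List W := (List.range 6 ×ˢ List.range (2 * N + 1) ×ˢ List.range (N + 1)).filter (In N)
def gr (φ : List (Cl3 ℕ)) : Gr := relGr (vs (3 * φ.length)) fun e => R (3 * φ.length) (LL φ e.2.2.2) e.1 e.2

theorem mem_vs {N p} : p ∈ vs N ↔ In N p := by
  obtain ⟨a, l, j⟩ := p
  simp only [vs, List.mem_filter, decide_eq_true_eq, List.mem_product, List.mem_range, In]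
  omega

set_option synthInstance.maxSize 2000 in
theorem hard : NPHard fun a : Gr => AT a.G ≤ 3 := by
  refine NPHard.of_sat3 gr (PT.relGr (by unfold vs In; fun_prop) (by unfold R LL litOf; fun_prop)) fun φ hφ => ?_
  have e : ∀ i (h : i < φ.length), ∀ k < 3, LL φ (3 * i + k) = 2 * (litOf (φ[i], k)).1 + (litOf (φ[i], k)).2.toNat ∧
      (litOf (φ[i], k)).1 < 3 * φ.length := fun i h k hk => by
    refine ⟨by simp [LL, show (3 * i + k) / 3 = i by omega, show (3 * i + k) % 3 = k by omega, h],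
      hφ _ (List.getElem_mem h) _ ?_⟩
    interval_cases k <;> simp [litOf, Cl3.vars]
  have hL : ∀ t < 3 * φ.length, LL φ t < 2 * (3 * φ.length) := fun t ht => by
    have := e (t / 3) (by omega) (t % 3) (by omega)
    have := (litOf (φ[t / 3]'(by omega), t % 3)).2.toNat_le
    rw [Nat.div_add_mod] at *
    omega
  simp only [Sat3, ok_iff, List.forall_mem_iff_getElem]
  constructor
  · rintro ⟨v, hv⟩
    choose! k h1 h2 using hv
    have a : ∀ x < 3 * φ.length, decide (v (2 * x / 2) = decide (2 * x % 2 = 1)) =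
        !decide (v ((2 * x + 1) / 2) = decide ((2 * x + 1) % 2 = 1)) := fun x _ => by
      simp [Nat.add_mod, Nat.add_div]
    have b : ∀ i < φ.length, k i < 3 ∧ decide (v (LL φ (3 * i + k i) / 2) = decide (LL φ (3 * i + k i) % 2 = 1)) = true :=
      fun i h => ⟨h1 i h, by
        have := h2 i h
        rw [(e i h _ (h1 i h)).1]
        generalize litOf _ = q at *
        obtain ⟨x, _ | _⟩ := q <;> simpa [Nat.add_mod, Nat.add_div] using this⟩
    exact at_le _ _ _ _ _ (fun x h => g1 x (mem_vs.1 h))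
      (fun x h y h' q => g2 (T := fun l => decide (v (l / 2) = decide (l % 2 = 1))) a b x (mem_vs.1 h) y (mem_vs.1 h')
        (of_decide_eq_true q))
      fun c p q x h => g3 hL a b c (fun x h => p x (mem_vs.2 h))
        (fun x h y h' e => q x (mem_vs.2 h) y (mem_vs.2 h') (decide_eq_true e)) x (mem_vs.1 h)
  · intro h
    obtain ⟨c, a, b⟩ := at_col _ _ h
    obtain ⟨T, a, b⟩ := toSat hL (fun x h => a x (mem_vs.2 h)) fun x h y h' e => b x (mem_vs.2 h) y (mem_vs.2 h')
      (by rintro rfl; simp only [R] at e; omega) (decide_eq_true e)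
    refine ⟨fun x => T (2 * x + 1), fun i h => (b i h).imp fun k q => ⟨q.1, ?_⟩⟩
    have := e i h k q.1
    have d := a _ this.2
    have f := this.1 ▸ q.2
    generalize litOf _ = q at *
    obtain ⟨x, _ | _⟩ := q <;> simp_all

theorem noPoly (h : ∃ f : Gr → ℕ, PT f ∧ ∀ a, f a = AT a.G) (A : List Bool → Prop) (hA : InNP A) : InP A := by
  obtain ⟨f, a, b⟩ := h
  exact InP.red ⟨fun x => decide (f x ≤ 3), by fun_prop, fun x => by simp [b]⟩ (hard A hA)

end Pool.Agent.H.MP_f2fc00_lc
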