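import Pool.Agent.Lib.lead.CXGraph

namespace Pool.Agent.H.MP_f2fc00_lc

open Finset

variable {V : Type} [Fintype V] [DecidableEq V]

/-- `D` is the arc set of an orientation of `G` -/
def IsOrient (G : SimpleGraph V) (D : Finset (V × V)) : Prop :=
  (∀ e ∈ D, G.Adj e.1 e.2) ∧ ∀ u v, G.Adj u v → ((u, v) ∈ D ↔ (v, u) ∉ D)

/-- in-degree equals out-degree at every vertex -/
def Eulerian (F : Finset (V × V)) : Prop := ∀ v, #{e ∈ F | e.1 = v} = #{e ∈ F | e.2 = v}

instance (F : Finset (V × V)) : Decidable (Eulerian F) := by unfold Eulerian; infer_instance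

/-- the number of even spanning Eulerian subgraphs -/
def EE (D : Finset (V × V)) : ℕ := #{F ∈ D.powerset | Eulerian F ∧ Even #F}

/-- the number of odd spanning Eulerian subgraphs -/
def EO (D : Finset (V × V)) : ℕ := #{F ∈ D.powerset | Eulerian F ∧ Odd #F}

/-- the Alon-Tarsi number -/
noncomputable def AT (G : SimpleGraph V) : ℕ :=
  sInf {k | ∃ D, IsOrient G D ∧ EE D ≠ EO D ∧ ∀ v, #{e ∈ D | e.1 = v} + 1 ≤ k}

end Pool.Agent.H.MP_f2fc00_lc
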